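import Pool.Agent.L7h83.HO.Stm

/-!
# Parts LOC and SHP of project HO (helper75)
-/

set_option autoImplicit false

open MvPolynomial Topology

namespace Pool.Agent.L7h75.HO

open Pool.Agent.L7h17.OC Pool.Agent.L7h83.HO

/-- part LOC -/
theorem s_LOC : LOC := by
  intro p z₀ h0 h1 U hU
  have hs : HasStrictDerivAt (fun z : ℂ => p.eval z) (p.derivative.eval z₀) z₀ :=
    p.hasStrictDerivAt z₀
  have hmap := hs.map_nhds_eq h1
  have himg : (fun z : ℂ => p.eval z) '' U ∈ 𝓝 (p.eval z₀) := by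
    rw [← hmap]
    exact Filter.image_mem_map hU
  obtain ⟨ε, hε, hball⟩ := Metric.mem_nhds_iff.1 himg
  constructor
  · have hw : p.eval z₀ + ((ε / 2 : ℝ) : ℂ) * Complex.I ∈ Metric.ball (p.eval z₀) ε := by
      rw [Metric.mem_ball, dist_eq_norm, add_sub_cancel_left, norm_mul, Complex.norm_I, mul_one,
        Complex.norm_real, Real.norm_eq_abs, abs_of_pos (by linarith)]
      linarith
    obtain ⟨z, hz, hzw⟩ := hball hw
    have hzw' : p.eval z = p.eval z₀ + ((ε / 2 : ℝ) : ℂ) * Complex.I := hzw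
    refine ⟨z, hz, ?_, ?_⟩
    · rw [hzw']
      simp [h0]
    · rw [hzw']
      simp
      linarith
  · have hw : p.eval z₀ - ((ε / 2 : ℝ) : ℂ) * Complex.I ∈ Metric.ball (p.eval z₀) ε := by
      rw [Metric.mem_ball, dist_eq_norm, sub_sub_cancel_left, norm_neg, norm_mul, Complex.norm_I,
        mul_one, Complex.norm_real, Real.norm_eq_abs, abs_of_pos (by linarith)]
      linarith
    obtain ⟨z, hz, hzw⟩ := hball hw
    have hzw' : p.eval z = p.eval z₀ - ((ε / 2 : ℝ) : ℂ) * Complex.I := hzw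
    refine ⟨z, hz, ?_, ?_⟩
    · rw [hzw']
      simp [h0]
    · rw [hzw']
      simp
      linarith

theorem sq_eq (x y : ℝ) : ((x : ℂ) + y * Complex.I) ^ 2 =
    ((x ^ 2 - y ^ 2 : ℝ) : ℂ) + ((2 * x * y : ℝ) : ℂ) * Complex.I := by
  push_cast
  linear_combination (y : ℂ) ^ 2 * Complex.I_sq

theorem re8 (x y : ℝ) : (((x : ℂ) + y * Complex.I) ^ 8).re =
    ((x ^ 2 - y ^ 2) ^ 2 - (2 * x * y) ^ 2) ^ 2 -
      (2 * (x ^ 2 - y ^ 2) * (2 * x * y)) ^ 2 := by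
  have h : ((x : ℂ) + y * Complex.I) ^ 8 = ((((x : ℂ) + y * Complex.I) ^ 2) ^ 2) ^ 2 := by ring
  rw [h, sq_eq, sq_eq, sq_eq]
  simp only [Complex.add_re, Complex.mul_re, Complex.ofReal_re, Complex.ofReal_im, Complex.I_re,
    Complex.I_im]
  ring

/-- the signs -/
noncomputable def s1 : Fin 4 → ℝ := ![1, 1, -1, -1]

/-- the signs -/
noncomputable def s2 : Fin 4 → ℝ := ![1, -1, 1, -1]

/-- the closed sets -/
def KK (F : MvPolynomial (Fin 3) ℝ) (i : Fin 4) : Set (Fin 3 → ℝ) :=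
  {v | eval v F = 0 ∧ 0 ≤ s1 i * (v 0 ^ 2 - v 1 ^ 2) ∧ 0 ≤ s2 i * (2 * v 0 * v 1)}

theorem vec_eta (v : Fin 3 → ℝ) : v = ![v 0, v 1, v 2] := by
  funext i; fin_cases i <;> rfl

theorem ev (F : MvPolynomial (Fin 3) ℝ) (hF : ∀ x y t : ℝ, eval ![x, y, t] F =
    (((x : ℂ) + y * Complex.I) ^ 8).re + t ^ 8) (v : Fin 3 → ℝ) : eval v F =
    ((v 0 ^ 2 - v 1 ^ 2) ^ 2 - (2 * v 0 * v 1) ^ 2) ^ 2 -
      (2 * (v 0 ^ 2 - v 1 ^ 2) * (2 * v 0 * v 1)) ^ 2 + v 2 ^ 8 := by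
  conv_lhs => rw [vec_eta v]
  rw [hF, re8]

/-- on the curve both numbers are not zero -/
theorem ne_zero_of (v : Fin 3 → ℝ) (hv : v ≠ 0)
    (h : ((v 0 ^ 2 - v 1 ^ 2) ^ 2 - (2 * v 0 * v 1) ^ 2) ^ 2 -
      (2 * (v 0 ^ 2 - v 1 ^ 2) * (2 * v 0 * v 1)) ^ 2 + v 2 ^ 8 = 0) :
    v 0 ^ 2 - v 1 ^ 2 ≠ 0 ∧ 2 * v 0 * v 1 ≠ 0 := by
  have key : (v 0 ^ 2 - v 1 ^ 2) * (2 * v 0 * v 1) = 0 → v = 0 := by
    intro h0
    have h1 : (2 * (v 0 ^ 2 - v 1 ^ 2) * (2 * v 0 * v 1)) ^ 2 = 0 := by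
      rw [mul_assoc, h0]; ring
    rw [h1, sub_zero] at h
    have h2 : 0 ≤ ((v 0 ^ 2 - v 1 ^ 2) ^ 2 - (2 * v 0 * v 1) ^ 2) ^ 2 := sq_nonneg _
    have h3 : 0 ≤ v 2 ^ 8 := by positivity
    have h4 : v 2 ^ 8 = 0 := by linarith
    have h5 : ((v 0 ^ 2 - v 1 ^ 2) ^ 2 - (2 * v 0 * v 1) ^ 2) ^ 2 = 0 := by linarith
    have h6 : v 2 = 0 := pow_eq_zero_iff (by norm_num) |>.1 h4
    have h7 : (v 0 ^ 2 - v 1 ^ 2) ^ 2 - (2 * v 0 * v 1) ^ 2 = 0 := pow_eq_zero_iff (by norm_num) |>.1 h5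
    -- |z|^8 = (a^2-b^2)^2 + (2ab)^2
    have h8 : (v 0 ^ 2 + v 1 ^ 2) ^ 4 = ((v 0 ^ 2 - v 1 ^ 2) ^ 2 - (2 * v 0 * v 1) ^ 2) ^ 2 +
        (2 * (v 0 ^ 2 - v 1 ^ 2) * (2 * v 0 * v 1)) ^ 2 := by ring
    rw [h1, h5, add_zero] at h8
    have h9 : v 0 ^ 2 + v 1 ^ 2 = 0 := pow_eq_zero_iff (by norm_num) |>.1 h8
    have h10 : v 0 ^ 2 = 0 := by nlinarith [sq_nonneg (v 0), sq_nonneg (v 1)]
    have h11 : v 1 ^ 2 = 0 := by nlinarith [sq_nonneg (v 0), sq_nonneg (v 1)]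
    have h12 : v 0 = 0 := pow_eq_zero_iff (by norm_num) |>.1 h10
    have h13 : v 1 = 0 := pow_eq_zero_iff (by norm_num) |>.1 h11
    rw [vec_eta v, h6, h12, h13]
    funext i; fin_cases i <;> rfl
  constructor
  · intro h0
    exact hv (key (by rw [h0, zero_mul]))
  · intro h0
    exact hv (key (by rw [h0, mul_zero]))

/-- part SHP -/
theorem s_SHP : SHP := by
  intro F hF
  have hev := ev F hF
  refine ⟨fun i => KK F i ∩ {v | v ≠ 0}, ?_, ?_, ?_, ?_, ?_⟩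
  · -- nonempty
    obtain ⟨t, ht⟩ : ∃ t : ℝ, t ^ 8 = 527 := by
      refine ⟨(527 : ℝ) ^ ((1 : ℝ) / 8), ?_⟩
      rw [← Real.rpow_natCast, ← Real.rpow_mul (by norm_num)]
      norm_num
    have hne : ∀ x y : ℝ, x ≠ 0 → (![x, y, t] : Fin 3 → ℝ) ≠ 0 := by
      intro x y hx h
      exact hx (congrFun h 0)
    have hmem : ∀ (i : Fin 4) (x y : ℝ), x ≠ 0 →
        ((x ^ 2 - y ^ 2) ^ 2 - (2 * x * y) ^ 2) ^ 2 -
        (2 * (x ^ 2 - y ^ 2) * (2 * x * y)) ^ 2 = -527 → 0 ≤ s1 i * (x ^ 2 - y ^ 2) →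
        0 ≤ s2 i * (2 * x * y) → (KK F i ∩ {v | v ≠ 0}).Nonempty := by
      intro i x y hx h1 h2 h3
      refine ⟨![x, y, t], ⟨?_, ?_, ?_⟩, hne x y hx⟩
      · rw [hev]
        show ((x ^ 2 - y ^ 2) ^ 2 - (2 * x * y) ^ 2) ^ 2 -
          (2 * (x ^ 2 - y ^ 2) * (2 * x * y)) ^ 2 + t ^ 8 = 0
        rw [h1, ht]; norm_num
      · exact h2
      · exact h3
    intro i
    fin_cases i
    · exact hmem 0 2 1 (by norm_num) (by norm_num) (by norm_num [s1]) (by norm_num [s2])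
    · exact hmem 1 2 (-1) (by norm_num) (by norm_num) (by norm_num [s1]) (by norm_num [s2])
    · exact hmem 2 1 2 (by norm_num) (by norm_num)
        (by show (0 : ℝ) ≤ (-1) * _; norm_num) (by show (0 : ℝ) ≤ 1 * _; norm_num)
    · exact hmem 3 1 (-2) (by norm_num) (by norm_num)
        (by show (0 : ℝ) ≤ (-1) * _; norm_num) (by show (0 : ℝ) ≤ (-1) * _; norm_num)
  · -- disjoint
    intro i j hij
    rw [Set.disjoint_left]
    rintro v ⟨⟨h0, h1, h2⟩, hv⟩ ⟨⟨-, h3, h4⟩, -⟩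
    rw [hev] at h0
    obtain ⟨ha, hb⟩ := ne_zero_of v hv h0
    apply hij
    generalize v 0 ^ 2 - v 1 ^ 2 = a at ha h1 h3
    generalize 2 * v 0 * v 1 = b at hb h2 h4
    fin_cases i <;> fin_cases j <;> simp only [s1, s2] at h1 h2 h3 h4 <;>
      first
      | rfl
      | (exfalso
         simp at h1 h2 h3 h4
         first
         | exact ha (le_antisymm h3 h1)
         | exact ha (le_antisymm h1 h3)
         | exact hb (le_antisymm h4 h2)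
         | exact hb (le_antisymm h2 h4))
  · -- union
    ext v
    rw [Set.mem_iUnion]
    constructor
    · rintro ⟨i, ⟨h0, -⟩, hv⟩
      exact ⟨hv, h0⟩
    · rintro ⟨hv, h0⟩
      rcases le_total 0 (v 0 ^ 2 - v 1 ^ 2) with h1 | h1 <;>
        rcases le_total 0 (2 * v 0 * v 1) with h2 | h2
      · exact ⟨0, ⟨h0, by simpa [s1] using h1, by simpa [s2] using h2⟩, hv⟩
      · exact ⟨1, ⟨h0, by simpa [s1] using h1, by
          show 0 ≤ (-1 : ℝ) * (2 * v 0 * v 1)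
          linarith⟩, hv⟩
      · exact ⟨2, ⟨h0, by
          show 0 ≤ (-1 : ℝ) * (v 0 ^ 2 - v 1 ^ 2)
          linarith, by simpa [s2] using h2⟩, hv⟩
      · exact ⟨3, ⟨h0, by
          show 0 ≤ (-1 : ℝ) * (v 0 ^ 2 - v 1 ^ 2)
          linarith, by
          show 0 ≤ (-1 : ℝ) * (2 * v 0 * v 1)
          linarith⟩, hv⟩
  · -- cone
    rintro i v ⟨⟨h0, h1, h2⟩, hv⟩ c hc
    refine ⟨⟨?_, ?_, ?_⟩, smul_ne_zero hc hv⟩
    · rw [hev] at h0 ⊢
      simp only [Pi.smul_apply, smul_eq_mul]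
      linear_combination c ^ 8 * h0
    · simp only [Pi.smul_apply, smul_eq_mul]
      have : s1 i * ((c * v 0) ^ 2 - (c * v 1) ^ 2) = c ^ 2 * (s1 i * (v 0 ^ 2 - v 1 ^ 2)) := by ring
      rw [this]
      exact mul_nonneg (sq_nonneg c) h1
    · simp only [Pi.smul_apply, smul_eq_mul]
      have : s2 i * (2 * (c * v 0) * (c * v 1)) = c ^ 2 * (s2 i * (2 * v 0 * v 1)) := by ring
      rw [this]
      exact mul_nonneg (sq_nonneg c) h2
  · -- closed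
    intro i
    refine ⟨KK F i, ?_, rfl⟩
    have hc : Continuous fun v : Fin 3 → ℝ => eval v F := MvPolynomial.continuous_eval F
    show IsClosed ({v : Fin 3 → ℝ | eval v F = 0} ∩
      ({v | 0 ≤ s1 i * (v 0 ^ 2 - v 1 ^ 2)} ∩ {v | 0 ≤ s2 i * (2 * v 0 * v 1)}))
    refine IsClosed.inter (isClosed_eq hc continuous_const)
      (IsClosed.inter (isClosed_le continuous_const ?_) (isClosed_le continuous_const ?_))
    · fun_prop
    · fun_prop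

end Pool.Agent.L7h75.HO
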